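import Pool.Agent.Work.MP_065151_ic.All

/-!
# The critical pair criterion for a principal continuum to be equal to the Julia set
-/

set_option autoImplicit false

open Topology

namespace Pool.Agent.Results.MP_065151_an.CriticalPairCriterion

open HH

/-- Let the Julia set of `z ^ 2 + c` be connected and equal to the filled-in Julia set, `c ≠ -2`.
The Boettcher uniformization exists. Some external ray has the whole Julia set as its principal
continuum if and only if every proper subcontinuum `H` of the Julia set that contains the critical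
point `0` and the critical value `c` is mapped to a proper subset of `H`. If `0` is recurrent, the
following are equivalent: some external ray has the whole Julia set as its principal continuum;
the Julia set is irreducible between `0` and `c`; it is irreducible between `0` and some fixed
point; between `0` and every fixed point; between `c` and every fixed point; every proper
subcontinuum that contains `0` is disjoint from its image; for all parameters `c n` that tend to
`c` and all subcontinua `H n` of the filled-in Julia sets that contain `0` and `c n`, the Hausdorff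
distance of `H n` and the Julia set of `z ^ 2 + c` tends to zero. -/
theorem result (c : ℂ) (hc : c ≠ -2) (h0 : (0 : ℂ) ∈ filledJulia c)
    (hJ : julia c = filledJulia c) :
    (∃ φ : ℂ → ℂ, IsBottcher c φ) ∧ ∀ φ : ℂ → ℂ, IsBottcher c φ →
      ((∃ t : ℝ, principal φ t = julia c) ↔ ∀ H : Set ℂ, H ⊆ julia c → H ≠ julia c →
        IsCompact H → IsConnected H → (0 : ℂ) ∈ H → c ∈ H → quad c '' H ⊂ H) ∧
      ((0 : ℂ) ∈ closure {z | ∃ n : ℕ, 1 ≤ n ∧ (quad c)^[n] 0 = z} →
        List.TFAE [∃ t : ℝ, principal φ t = julia c,
          IrreducibleBetween (julia c) 0 c,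
          ∃ p : ℂ, quad c p = p ∧ IrreducibleBetween (julia c) 0 p,
          ∀ p : ℂ, quad c p = p → IrreducibleBetween (julia c) 0 p,
          ∀ p : ℂ, quad c p = p → IrreducibleBetween (julia c) c p,
          ∀ H : Set ℂ, H ⊆ julia c → H ≠ julia c → IsCompact H → IsConnected H → (0 : ℂ) ∈ H →
            Disjoint H (quad c '' H),
          ∀ (cs : ℕ → ℂ) (Hs : ℕ → Set ℂ), Filter.Tendsto cs Filter.atTop (𝓝 c) →
            (∀ n, IsCompact (Hs n)) → (∀ n, IsConnected (Hs n)) →
            (∀ n, Hs n ⊆ filledJulia (cs n)) → (∀ n, (0 : ℂ) ∈ Hs n) → (∀ n, cs n ∈ Hs n) →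
            Filter.Tendsto (fun n => Metric.hausdorffDist (Hs n) (julia c)) Filter.atTop
              (𝓝 0)]) := by
  refine ⟨?_, fun φ hφ => ⟨ICP.partA ICP.a_GHF ICP.p_EQH ICP.p_HAC hc h0 hJ hφ, fun hr =>
    ICP.partB ICP.a_REC ICP.a_DIS ICP.p_EQH ICP.p_HAC hc h0 hJ hφ hr⟩⟩
  obtain ⟨ψ, hψ⟩ := exists_Bo (filledJulia_eq c ▸ h0)
  exact ⟨ψ, bottcher_of_bo hψ⟩

end Pool.Agent.Results.MP_065151_an.CriticalPairCriterion
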