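import Pool.Agent.Work.MP_065151_hh.Rays

/-!
# A criterion for a principal continuum to be equal to the Julia set
-/

set_option autoImplicit false

open Topology

namespace Pool.Agent.Results.MP_065151_an.CriticalValueCriterion

open HH

/-- Let the Julia set of `z ^ 2 + c` be connected and equal to the filled-in Julia set, `c ≠ -2`.
The Boettcher uniformization exists, and its ray of angle zero lands at a fixed point `β`. The
following are equivalent: some external ray has the whole Julia set as its principal continuum;
the Julia set is not split by a proper subcontinuum and its reflection; no proper subcontinuum of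
the Julia set contains both the critical value and the principal continuum of an external ray;
the Julia set is irreducible between the critical value and `β`; the Julia set is irreducible
between `β` and `-β`. -/
theorem result (c : ℂ) (hc : c ≠ -2) (h0 : (0 : ℂ) ∈ filledJulia c)
    (hJ : julia c = filledJulia c) :
    (∃ φ : ℂ → ℂ, IsBottcher c φ) ∧
    ∀ φ : ℂ → ℂ, IsBottcher c φ → ∃ β : ℂ, quad c β = β ∧
      Filter.Tendsto (fun r : ℝ => φ (r : ℂ)) (𝓝[>] 1) (𝓝 β) ∧
      List.TFAE [∃ t : ℝ, principal φ t = julia c,
        ¬ ∃ A : Set ℂ, Splits c φ A,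
        ∀ S : Set ℂ, S ⊆ julia c → S ≠ julia c → IsCompact S → IsConnected S → c ∈ S →
          ∀ t : ℝ, ¬ principal φ t ⊆ S,
        IrreducibleBetween (julia c) c β,
        IrreducibleBetween (julia c) β (-β)] := by
  refine ⟨?_, fun φ hφ => thmB hc h0 hJ hφ⟩
  obtain ⟨ψ, hψ⟩ := exists_Bo (filledJulia_eq c ▸ h0)
  exact ⟨ψ, bottcher_of_bo hψ⟩

end Pool.Agent.Results.MP_065151_an.CriticalValueCriterion
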