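import Pool.Agent.Work.MP_065151_zz.Main

/-!
# The fixed point criterion for a principal continuum to be equal to the Julia set
-/

set_option autoImplicit false

open Topology

namespace Pool.Agent.Results.MP_065151_an.FixedPointPairs

open HH

/-- Let the Julia set of `z ^ 2 + c` be connected and equal to the filled-in Julia set, `c ≠ -2`,
and let the critical point `0` be recurrent. For each Boettcher map the following are equivalent:
some external ray has the whole Julia set as its principal continuum; for some fixed point `p` the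
Julia set is irreducible between the two preimages `p` and `-p` of `p`; for every fixed point `p`
it is irreducible between `p` and `-p`; for all parameters `c n` that tend to `c` and all
subcontinua `H n` of the filled-in Julia sets of `z ^ 2 + c n` that contain a fixed point `p n` of
`z ^ 2 + c n` and one of the points `0`, `c n`, `-p n`, the Hausdorff distance of `H n` and the
Julia set of `z ^ 2 + c` tends to zero. -/
theorem result (c : ℂ) (hc : c ≠ -2) (h0 : (0 : ℂ) ∈ filledJulia c)
    (hJ : julia c = filledJulia c)
    (hr : (0 : ℂ) ∈ closure {z | ∃ n : ℕ, 1 ≤ n ∧ (quad c)^[n] 0 = z})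
    (φ : ℂ → ℂ) (hφ : IsBottcher c φ) :
    List.TFAE [∃ t : ℝ, principal φ t = julia c,
      ∃ p : ℂ, quad c p = p ∧ IrreducibleBetween (julia c) p (-p),
      ∀ p : ℂ, quad c p = p → IrreducibleBetween (julia c) p (-p),
      ∀ (cs : ℕ → ℂ) (Hs : ℕ → Set ℂ), Filter.Tendsto cs Filter.atTop (𝓝 c) →
        (∀ n, IsCompact (Hs n)) → (∀ n, IsConnected (Hs n)) →
        (∀ n, Hs n ⊆ filledJulia (cs n)) →
        (∀ n, ∃ p ∈ Hs n, quad (cs n) p = p ∧
          ((0 : ℂ) ∈ Hs n ∨ cs n ∈ Hs n ∨ -p ∈ Hs n)) →
        Filter.Tendsto (fun n => Metric.hausdorffDist (Hs n) (julia c)) Filter.atTop (𝓝 0)] :=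
  ZZP.main hc h0 hJ hφ hr

end Pool.Agent.Results.MP_065151_an.FixedPointPairs
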