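import Pool.Agent.Work.MP_065151_ry.Fin

/-!
# Pairs of external rays and the principal continua of an indecomposable Julia set
-/

set_option autoImplicit false

open Topology

namespace Pool.Agent.Results.MP_065151_an.RayPairCriterion

open HH

/-- Let the Julia set of `z ^ 2 + c` be connected and equal to the filled-in Julia set, `c ≠ -2`,
and let `φ` be a Boettcher uniformization.

(A) The following are equivalent: (1) some external ray has the whole Julia set as its principal
continuum; (2) if proper subcontinua `X`, `Y` of the Julia set meet the principal continua of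
angle `s`, `t`, which are not the whole Julia set, and `x ∈ X`, `y ∈ Y` have the same image under
the iterates of order `n` and `m`, then `2 ^ n * s - 2 ^ m * t` is an integer; (3) two external
rays of different angles land at points such that the Julia set is irreducible between them.

(B) If (1) holds, then for every proper subcontinuum `X` of the Julia set that meets the principal
continuum of some angle `t`, if this is not the whole Julia set: all iterates are injective on `X`,
and no point of `X` is in the grand orbit of the critical point.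

(C) Let the principal continuum of angle `t` contain points `z`, `w` of one of the following kinds:
`z ≠ w` have the same image under some iterate; `z` is in the grand orbit of the critical point;
`z` and `w` have the same image under the iterates of order `n` and `m`, and `(2 ^ n - 2 ^ m) * t`
is not an integer. Then (1) holds if and only if the principal continuum of angle `t` is the whole
Julia set. -/
theorem result (c : ℂ) (hc : c ≠ -2) (h0 : (0 : ℂ) ∈ filledJulia c)
    (hJ : julia c = filledJulia c) (φ : ℂ → ℂ) (hφ : IsBottcher c φ) :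
    List.TFAE [∃ t : ℝ, principal φ t = julia c,
      ∀ X Y : Set ℂ, X ⊆ julia c → X ≠ julia c → IsCompact X → IsConnected X →
        Y ⊆ julia c → Y ≠ julia c → IsCompact Y → IsConnected Y → ∀ s t : ℝ,
        principal φ s ≠ julia c → principal φ t ≠ julia c → (X ∩ principal φ s).Nonempty →
          (Y ∩ principal φ t).Nonempty → ∀ x ∈ X, ∀ y ∈ Y, ∀ n m : ℕ,
            (quad c)^[n] x = (quad c)^[m] y → ∃ k : ℤ, (2 : ℝ) ^ n * s - 2 ^ m * t = k,
      ∃ (s t : ℝ) (x y : ℂ), (∀ n : ℤ, s - t ≠ n) ∧ principal φ s = {x} ∧ principal φ t = {y} ∧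
        IrreducibleBetween (julia c) x y] ∧
    ((∃ t : ℝ, principal φ t = julia c) → ∀ X : Set ℂ, X ⊆ julia c → X ≠ julia c →
      IsCompact X → IsConnected X → ∀ t : ℝ, principal φ t ≠ julia c →
        (X ∩ principal φ t).Nonempty → (∀ n : ℕ, Set.InjOn (quad c)^[n] X) ∧
          ∀ z ∈ X, ∀ n m : ℕ, (quad c)^[n] z ≠ (quad c)^[m] 0) ∧
    ∀ t : ℝ, ∀ z ∈ principal φ t, ∀ w ∈ principal φ t,
      (z ≠ w ∧ ∃ n : ℕ, (quad c)^[n] z = (quad c)^[n] w) ∨
      (∃ n m : ℕ, (quad c)^[n] z = (quad c)^[m] 0) ∨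
      (∃ n m : ℕ, (quad c)^[n] z = (quad c)^[m] w ∧ ∀ k : ℤ, ((2 : ℝ) ^ n - 2 ^ m) * t ≠ k) →
      ((∃ s : ℝ, principal φ s = julia c) ↔ principal φ t = julia c) := by
  have hi := interior_empty hJ
  have hB := bo_of_bottcher hφ
  have hJK : julia c = R4C.K c := by rw [hJ, filledJulia_eq]
  have h0K : (0 : ℂ) ∈ R4C.K c := by rwa [filledJulia_eq] at h0
  have hno : (∃ t : ℝ, principal φ t = julia c) → ∀ T, ¬ Half c T := by
    intro ht T hT
    obtain ⟨β, -, -, htfae⟩ := thmB hc h0 hJ hφ
    obtain ⟨hx, hy, hxy⟩ := (htfae.out 0 3).1 ht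
    rw [hJK] at hx hy hxy
    refine hc (irr_forces h0K hi (x := c) (y := β) ⟨hx, hy, fun S h1 h2 h3 h4 h5 => ?_⟩ hT)
    rw [hxy S h3 h1 ⟨⟨c, h4⟩, h2⟩ h4 h5]
  have hPS : ∀ X : Set ℂ, X ⊆ julia c → X ≠ julia c → IsCompact X → IsConnected X →
      RY.PS c X := fun X h1 h2 h3 h4 =>
    ⟨h3, h4.isPreconnected, hJK ▸ h1, fun h5 => h2 (Set.Subset.antisymm h1 (hJK ▸ h5))⟩
  have hne : ∀ t : ℝ, principal φ t ≠ julia c → ¬ R4C.K c ⊆ principal φ t := fun t h1 h2 =>
    h1 (by rw [hJK]; exact Set.Subset.antisymm (principal_sub hB t) h2)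
  have hBt : (∃ t : ℝ, principal φ t = julia c) → ∀ X : Set ℂ, X ⊆ julia c → X ≠ julia c →
      IsCompact X → IsConnected X → ∀ t : ℝ, principal φ t ≠ julia c →
        (X ∩ principal φ t).Nonempty → (∀ n : ℕ, Set.InjOn (quad c)^[n] X) ∧
          ∀ z ∈ X, ∀ n m : ℕ, (quad c)^[n] z ≠ (quad c)^[m] 0 := by
    intro hex X h1 h2 h3 h4 t ht hm
    have hX := hPS X h1 h2 h3 h4
    exact ⟨fun n => RY.inj_iter hB h0K hi (hno hex) n X hX t (hne t ht) hm,
      fun z hz n m => RY.not_orbit hB h0K hi (hno hex) n m X hX t (hne t ht) hm z hz⟩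
  refine ⟨?_, hBt, ?_⟩
  · tfae_have 1 → 2 := by
      intro hex X Y h1 h2 h3 h4 h5 h6 h7 h8 s t hs ht hms hmt x hx y hy n m hxy
      exact RY.wander hB h0K hi (hno hex) (hPS X h1 h2 h3 h4) (hPS Y h5 h6 h7 h8) (hne s hs)
        (hne t ht) hms hmt n m hx hy hxy
    tfae_have 2 → 3 := by
      intro h2
      obtain ⟨β, hβ, hlim⟩ := land hB
      have hβK := fixed_mem_K hβ
      have hc0 := c_ne_zero hi
      have hβ0 : β ≠ 0 := by
        rintro rfl
        rw [f_zero] at hβ
        exact hc0 hβ
      have hp0 : principal φ 0 = {β} := by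
        refine Set.Subset.antisymm (principal_zero hB hlim) ?_
        obtain ⟨y, hy⟩ := principal_nonempty hB 0
        have h3 := principal_zero hB hlim hy
        rw [Set.mem_singleton_iff] at h3
        rw [Set.singleton_subset_iff, ← h3]
        exact hy
      have hp1 : principal φ (0 + 1 / 2) = {-β} := by
        rw [RY.principal_half hB, hp0]
        ext z
        rw [mem_nH, Set.mem_singleton_iff, Set.mem_singleton_iff]
        constructor
        · intro h3
          rw [← h3, neg_neg]
        · intro h3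
          rw [h3, neg_neg]
      have hsing : ∀ x : ℂ, ({x} : Set ℂ) ≠ julia c := by
        intro x h3
        rw [hJK] at h3
        have h4 : β ∈ ({x} : Set ℂ) := by rw [h3]; exact hβK
        have h5 : -β ∈ ({x} : Set ℂ) := by rw [h3]; exact (neg_mem_K c β).2 hβK
        rw [Set.mem_singleton_iff] at h4 h5
        exact hβ0 (self_eq_neg.1 (h4.trans h5.symm))
      refine ⟨0 + 1 / 2, 0, -β, β, fun n hn => ?_, hp1, hp0, ?_, ?_, ?_⟩
      · have h3 : (2 : ℝ) * n = 1 := by linarith
        have h4 : (2 : ℤ) * n = 1 := by exact_mod_cast h3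
        omega
      · rw [hJK]
        exact (neg_mem_K c β).2 hβK
      · rw [hJK]
        exact hβK
      · intro S hS1 hS2 hS3 hS4 hS5
        by_contra hS6
        obtain ⟨n, hn⟩ := h2 S S hS1 hS6 hS2 hS3 hS1 hS6 hS2 hS3 (0 + 1 / 2) 0
          (by rw [hp1]; exact hsing _) (by rw [hp0]; exact hsing _)
          ⟨-β, hS4, by rw [hp1]; exact rfl⟩ ⟨β, hS5, by rw [hp0]; exact rfl⟩ β hS5 β hS5 0 0 rfl
        have h3 : (2 : ℝ) * n = 1 := by
          rw [pow_zero] at hn
          linarith
        have h4 : (2 : ℤ) * n = 1 := by exact_mod_cast h3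
        omega
    tfae_have 3 → 1 := by
      rintro ⟨s, t, x, y, -, -, -, hx, hy, hxy⟩
      rw [hJK] at hx hy hxy ⊢
      have hI : Irr c x y := ⟨hx, hy, fun S h1 h2 h3 h4 h5 => by
        rw [hxy S h3 h1 ⟨⟨x, h4⟩, h2⟩ h4 h5]⟩
      obtain ⟨u, hu⟩ := exists_dense_ray hB hi fun T hT => hc (irr_forces h0K hi hI hT)
      exact ⟨u, Set.Subset.antisymm (principal_sub hB u) fun z hz => mem_principal hB (hu hz) hz⟩
    tfae_finish
  · intro t z hz w hw hcases
    refine ⟨fun hex => ?_, fun h1 => ⟨t, h1⟩⟩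
    by_contra hcon
    have hP := RY.principal_PS hB (hne t hcon)
    obtain ⟨g1, g2⟩ := hBt hex (principal φ t) (by rw [hJK]; exact principal_sub hB t) hcon
      hP.cpt ⟨⟨z, hz⟩, hP.con⟩ t hcon ⟨z, hz, hz⟩
    rcases hcases with ⟨hzw, n, hn⟩ | ⟨n, m, hnm⟩ | ⟨n, m, hnm, hk⟩
    · exact hzw (g1 n hz hw hn)
    · exact g2 z hz n m hnm
    · obtain ⟨k, hk2⟩ := RY.wander hB h0K hi (hno hex) hP hP (hne t hcon) (hne t hcon)
        ⟨z, hz, hz⟩ ⟨z, hz, hz⟩ n m hz hw hnm
      exact hk k (by rw [sub_mul]; exact hk2)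

end Pool.Agent.Results.MP_065151_an.RayPairCriterion
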